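import Pool.Agent.Helper89.GW.Stmts

set_option autoImplicit false

open scoped ContDiff Topology
open Set Filter

namespace GW

set_option maxRecDepth 100000 in
theorem np2ab_chk2AB : chk2AB = true := by decide +kernel

set_option maxRecDepth 100000 in
theorem np2ab_chk12AB : chk12AB = true := by decide +kernel

set_option maxRecDepth 100000 in
theorem np2ab_chk12C : chk12C = true := by decide +kernel

/-- slopes of `xI` vanish where both ribbons live -/
def np2abX : Bool := allX.all fun X => (T2 ++ [El.near 12]).all fun T =>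
  absent aI' X T || absent bI X T ||
    X.iv.all (fun c => T.nd.all fun k => decide (xI c k = xI (c + 1) k))

/-- rates of `xI` vanish in the late bands -/
def np2abT : Bool := allX.all fun X => T2.all fun T =>
  (!lateT T) || X.nd.all (fun c => T.iv.all fun k => decide (xI c k = xI c (k + 1)))

set_option maxRecDepth 100000 in
theorem np2abX_true : np2abX = true := by decide +kernel

set_option maxRecDepth 100000 in
theorem np2abT_true : np2abT = true := by decide +kernel

theorem np2ab_mem_near (a b c : ℤ) (h1 : a ≤ c) (h2 : c ≤ b) : El.near c ∈ els a b := by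
  unfold els
  rw [List.mem_flatMap]
  refine ⟨c - a, ?_, ?_⟩
  · simp only [List.bind_eq_flatMap, List.mem_flatMap, List.mem_range, List.pure_def,
      List.mem_singleton]
    exact ⟨(c - a).toNat, by omega, by omega⟩
  · simp only [List.mem_cons, El.near.injEq]
    left; omega

theorem np2ab_mem_cell (a b c : ℤ) (h1 : a ≤ c) (h2 : c ≤ b) : El.cell c ∈ els a b := by
  unfold els
  rw [List.mem_flatMap]
  refine ⟨c - a, ?_, ?_⟩
  · simp only [List.bind_eq_flatMap, List.mem_flatMap, List.mem_range, List.pure_def,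
      List.mem_singleton]
    exact ⟨(c - a).toNat, by omega, by omega⟩
  · simp only [List.mem_cons, El.cell.injEq]
    right; left; omega

theorem np2ab_els {a b : ℤ} {e : El} (h : e ∈ els a b) :
    ∃ c : ℤ, a ≤ c ∧ c ≤ b ∧ (e = El.near c ∨ e = El.cell c) := by
  unfold els at h
  rw [List.mem_flatMap] at h
  obtain ⟨i, hi, h2⟩ := h
  simp only [List.bind_eq_flatMap, List.mem_flatMap, List.mem_range, List.pure_def,
    List.mem_singleton] at hi
  obtain ⟨n, hn, rfl⟩ := hi
  refine ⟨a + n, by omega, by omega, ?_⟩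
  simpa using h2

/-- `aI'` vanishes outside `[-1, 13]` -/
theorem np2ab_aI_zero (c k : ℤ) (h : c ≤ -2 ∨ 14 ≤ c) : aI' c k = 0 := by
  unfold aI' tg
  rcases h with h | h
  · rw [if_pos h]
  · rw [if_neg (by omega), if_neg (by omega)]

theorem np2ab_allX {X T : El} (h : absent aI' X T = false) : X ∈ allX := by
  by_contra hX
  have : absent aI' X T = true := by
    unfold absent
    rw [List.all_eq_true]
    intro c hc
    rw [List.all_eq_true]
    intro k _
    rw [decide_eq_true_eq]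
    apply np2ab_aI_zero
    cases X with
    | near d =>
      have hd : ¬ (-9 ≤ d ∧ d ≤ 15) := fun hh => hX (np2ab_mem_near _ _ _ hh.1 hh.2)
      simp only [El.nd, List.mem_cons, List.not_mem_nil, or_false] at hc
      omega
    | cell d =>
      have hd : ¬ (-9 ≤ d ∧ d ≤ 15) := fun hh => hX (np2ab_mem_cell _ _ _ hh.1 hh.2)
      simp only [El.nd, List.mem_cons, List.not_mem_nil, or_false] at hc
      omega
  rw [h] at this
  exact Bool.noConfusion this

theorem np2ab_T2 {T : El} {t : ℝ} (hT : T.mem t) (h1 : 13 / 4 < t) (h2 : t ≤ 47 / 4) : T ∈ T2 := by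
  unfold T2
  cases T with
  | near c =>
    simp only [El.mem, abs_lt] at hT
    have h3 : (3 : ℝ) < c := by linarith
    have h4 : (c : ℝ) < 12 := by linarith
    have h3' : (3 : ℤ) < c := by exact_mod_cast h3
    have h4' : c < (12 : ℤ) := by exact_mod_cast h4
    exact List.mem_cons_of_mem _ (np2ab_mem_near _ _ _ (by omega) (by omega))
  | cell c =>
    simp only [El.mem] at hT
    have h3 : (2 : ℝ) < c := by linarith
    have h4 : (c : ℝ) < 12 := by linarith
    have h3' : (2 : ℤ) < c := by exact_mod_cast h3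
    have h4' : c < (12 : ℤ) := by exact_mod_cast h4
    by_cases h5 : c = 3
    · rw [h5]; exact List.mem_cons_self ..
    · exact List.mem_cons_of_mem _ (np2ab_mem_cell _ _ _ (by omega) (by omega))

theorem np2ab_hole {X T : El} {x t : ℝ} (hX : X.mem x) (hT : T.mem t)
    (hO : ¬ (15 / 4 ≤ x ∧ x ≤ 29 / 4 ∧ 35 / 4 ≤ t ∧ t ≤ 61 / 4)) : inHole X T = false := by
  by_contra hcon
  rw [Bool.not_eq_false] at hcon
  unfold inHole at hcon
  rw [Bool.and_eq_true, decide_eq_true_eq, decide_eq_true_eq] at hcon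
  obtain ⟨h1, h2⟩ := hcon
  apply hO
  have hx : 15 / 4 ≤ x ∧ x ≤ 29 / 4 := by
    unfold holeX at h1
    rw [List.mem_append] at h1
    rcases h1 with h1 | h1
    · obtain ⟨c, hc1, hc2, h | h⟩ := np2ab_els h1
      · rw [h] at hX
        simp only [El.mem, abs_lt] at hX
        have h3 : (4 : ℝ) ≤ c := by exact_mod_cast hc1
        have h4 : (c : ℝ) ≤ 6 := by exact_mod_cast hc2
        constructor <;> linarith
      · rw [h] at hX
        simp only [El.mem] at hX
        have h3 : (4 : ℝ) ≤ c := by exact_mod_cast hc1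
        have h4 : (c : ℝ) ≤ 6 := by exact_mod_cast hc2
        constructor <;> linarith
    · rw [List.mem_singleton] at h1
      rw [h1] at hX
      simp only [El.mem, abs_lt] at hX
      push_cast at hX
      constructor <;> linarith
  have ht : 35 / 4 ≤ t ∧ t ≤ 61 / 4 := by
    unfold holeT at h2
    rw [List.mem_append] at h2
    rcases h2 with h2 | h2
    · obtain ⟨c, hc1, hc2, h | h⟩ := np2ab_els h2
      · rw [h] at hT
        simp only [El.mem, abs_lt] at hT
        have h3 : (9 : ℝ) ≤ c := by exact_mod_cast hc1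
        have h4 : (c : ℝ) ≤ 11 := by exact_mod_cast hc2
        constructor <;> linarith
      · rw [h] at hT
        simp only [El.mem] at hT
        have h3 : (9 : ℝ) ≤ c := by exact_mod_cast hc1
        have h4 : (c : ℝ) ≤ 11 := by exact_mod_cast hc2
        constructor <;> linarith
    · rw [List.mem_singleton] at h2
      rw [h2] at hT
      simp only [El.mem, abs_lt] at hT
      push_cast at hT
      constructor <;> linarith
  exact ⟨hx.1, hx.2, ht.1, ht.2⟩

/-- `s` lies in the hull of `l` -/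
def np2abHul (l : List ℤ) (s : ℝ) : Prop :=
  ∀ P Q : ℝ, (∀ σ ∈ l, 0 < P - (σ : ℝ) * Q) → 0 < P - s * Q

theorem np2ab_hul {f : Bool} {s : ℝ} (h1 : |s| ≤ 1) (h2 : f = true → s = 1 ∨ s = -1) :
    ∃ l ∈ hts f, np2abHul l s := by
  cases f with
  | true =>
    rcases h2 rfl with h | h
    · refine ⟨[1], by simp [hts], fun P Q hh => ?_⟩
      have := hh 1 (by simp)
      rw [h]; push_cast at this; exact this
    · refine ⟨[-1], by simp [hts], fun P Q hh => ?_⟩
      have := hh (-1) (by simp)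
      rw [h]; push_cast at this; exact this
  | false =>
    refine ⟨[1, -1], by simp [hts], fun P Q hh => ?_⟩
    have a := hh 1 (by simp)
    have b := hh (-1) (by simp)
    push_cast at a b
    have hQ : |Q| < P := abs_lt.2 ⟨by linarith, by linarith⟩
    have h3 : s * Q ≤ |s * Q| := le_abs_self _
    rw [abs_mul] at h3
    have h4 : |s| * |Q| ≤ 1 * |Q| := mul_le_mul_of_nonneg_right h1 (abs_nonneg _)
    linarith

theorem np2ab_hul2 {l l' : List ℤ} {s s' : ℝ} (h : np2abHul l s) (h' : np2abHul l' s')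
    (M B U : ℝ) (hh : ∀ σ ∈ l, ∀ σ' ∈ l', 0 < M + (σ' : ℝ) * B - (σ : ℝ) * U) :
    0 < M + s' * B - s * U := by
  have h1 : ∀ σ ∈ l, 0 < (M + s' * B) - (σ : ℝ) * U := by
    intro σ hσ
    have := h' (M - σ * U) (-B) (fun σ' hσ' => by have := hh σ hσ σ' hσ'; linarith)
    linarith
  exact h _ _ h1

theorem np2ab_pair (hSIGN : ST_SIGN) (hSLIN : ST_SLIN) {allowR : Bool} {u m b : ℤ → ℤ → ℤ}
    {X T : El} {x t s s' : ℝ} (hu : SupI u) (hm : SupI m) (hb : SupI b) (hX : X.mem x)
    (hT : T.mem t) (hp : pair allowR u m b X T = true) (hau : absent u X T = false)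
    (hab : absent b X T = false) (hs : |s| ≤ 1) (hs' : |s'| ≤ 1)
    (hfu : full u X T = true → s = 1 ∨ s = -1) (hfb : full b X T = true → s' = 1 ∨ s' = -1) :
    (dX (sp m) (x, t) + s' * dX (sp b) (x, t) - s * dX (sp u) (x, t) ≠ 0) ∨
    (allowR = true ∧ dT (sp m) (x, t) + s' * dT (sp b) (x, t) - s * dT (sp u) (x, t) ≠ 0) := by
  obtain ⟨l, hl, hul⟩ := np2ab_hul hs hfu
  obtain ⟨l', hl', hul'⟩ := np2ab_hul hs' hfb
  unfold pair at hp
  rw [hau, hab, Bool.false_or, Bool.false_or, List.all_eq_true] at hp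
  have h1 := hp l hl
  rw [List.all_eq_true] at h1
  have h2 := h1 l' hl'
  have hmem : ∀ (p : (ℤ → ℤ → ℤ) → Bool), (l.flatMap fun s => l'.map fun s' => fun c k =>
      m c k + s' * b c k - s * u c k).all p = true → ∀ σ ∈ l, ∀ σ' ∈ l',
      p (fun c k => m c k + σ' * b c k - σ * u c k) = true := by
    intro p hpp σ hσ σ' hσ'
    rw [List.all_eq_true] at hpp
    apply hpp
    rw [List.mem_flatMap]
    refine ⟨σ, hσ, ?_⟩
    rw [List.mem_map]
    exact ⟨σ', hσ', rfl⟩
  have hlin := fun σ σ' : ℤ => hSLIN m b u σ σ' (x, t) hm hb hu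
  have hsg := fun σ σ' : ℤ => hSIGN (fun c k => m c k + σ' * b c k - σ * u c k) X T x t
    (hlin σ σ').1 hX hT
  simp only [Bool.or_eq_true, Bool.and_eq_true] at h2
  rcases h2 with h2 | ⟨h3, h2⟩
  · left
    unfold sSame at h2
    rw [Bool.or_eq_true] at h2
    rcases h2 with h2 | h2
    · have := np2ab_hul2 hul hul' (dX (sp m) (x, t)) (dX (sp b) (x, t)) (dX (sp u) (x, t))
        (fun σ hσ σ' hσ' => by
          rw [← (hlin σ σ').2.2.1]
          exact (hsg σ σ').1 (hmem _ h2 σ hσ σ' hσ'))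
      exact this.ne'
    · have := np2ab_hul2 hul hul' (-dX (sp m) (x, t)) (-dX (sp b) (x, t)) (-dX (sp u) (x, t))
        (fun σ hσ σ' hσ' => by
          have h5 := (hsg σ σ').2.1 (hmem _ h2 σ hσ σ' hσ')
          rw [(hlin σ σ').2.2.1] at h5
          linarith)
      intro h6
      linarith
  · right
    refine ⟨h3, ?_⟩
    unfold rSame at h2
    rw [Bool.or_eq_true] at h2
    rcases h2 with h2 | h2
    · have := np2ab_hul2 hul hul' (dT (sp m) (x, t)) (dT (sp b) (x, t)) (dT (sp u) (x, t))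
        (fun σ hσ σ' hσ' => by
          rw [← (hlin σ σ').2.2.2]
          exact (hsg σ σ').2.2.1 (hmem _ h2 σ hσ σ' hσ'))
      exact this.ne'
    · have := np2ab_hul2 hul hul' (-dT (sp m) (x, t)) (-dT (sp b) (x, t)) (-dT (sp u) (x, t))
        (fun σ hσ σ' hσ' => by
          have h5 := (hsg σ σ').2.2.2.1 (hmem _ h2 σ hσ σ' hσ')
          rw [(hlin σ σ').2.2.2] at h5
          linarith)
      intro h6
      linarith

/-- data of the profile -/
theorem np2ab_prof (hHHF : ST_HHF) (hSIGN : ST_SIGN) {u : ℤ → ℤ → ℤ} {X T : El} {x t s : ℝ}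
    (hu : SupI u) (hu0 : ∀ c k, 0 ≤ u c k) (hX : X.mem x) (hT : T.mem t)
    (hs : s ^ 2 = hh (sp u (x, t) / ee)) :
    absent u X T = false ∧ |s| ≤ 1 ∧ (full u X T = true → s = 1 ∨ s = -1) := by
  obtain ⟨-, hh1, hh2, -, hh4, -⟩ := hHHF
  have hsg := hSIGN u X T x t hu hX hT
  refine ⟨?_, ?_, ?_⟩
  · by_contra hcon
    rw [Bool.not_eq_false] at hcon
    have h1 := hsg.2.2.2.2.1 hcon
    rw [h1, zero_div, hh1 0 (by norm_num)] at hs
    nlinarith [sq_nonneg s]
  · have h1 := hh4 (sp u (x, t) / ee)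
    rw [← hs] at h1
    exact abs_le_one_iff_mul_self_le_one.2 (by nlinarith)
  · intro hf
    have h1 := hsg.2.2.2.2.2.1 (fun c _ k _ => hu0 c k) hf
    have h2 : 1 ≤ sp u (x, t) / ee := by
      rw [le_div_iff₀ (by unfold ee; norm_num)]
      unfold ee
      linarith
    rw [hh2 _ h2] at hs
    have h3 : (s - 1) * (s + 1) = 0 := by ring_nf; linarith
    rcases mul_eq_zero.1 h3 with h | h
    · left; linarith
    · right; linarith

/-- vanishing of derivatives -/
theorem np2ab_dX0 (hSPD : ST_SPD) (hELEM : ST_ELEM) (hLAM : ST_LAM) {z : ℤ → ℤ → ℤ} {X T : El}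
    {x t : ℝ} (hz : SupI z) (hX : X.mem x) (hT : T.mem t)
    (h : ∀ c ∈ X.iv, ∀ k ∈ T.nd, z c k = z (c + 1) k) : dX (sp z) (x, t) = 0 := by
  obtain ⟨-, -, h1, -⟩ := hSPD z hz
  obtain ⟨-, -, -, hB, hL, -⟩ := hLAM
  obtain ⟨e1, -, -⟩ := hELEM.2 X x hX
  obtain ⟨-, e2, -⟩ := hELEM.2 T t hT
  rw [h1]
  refine Finset.sum_eq_zero fun c _ => Finset.sum_eq_zero fun k _ => ?_
  by_cases hc : c ∈ X.iv
  · by_cases hk : k ∈ T.nd
    · rw [h c hc k hk, sub_self, zero_mul, zero_mul]
    · have : ¬ 0 < Lam (t - k) := fun hh => hk ((e2 k).1 hh)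
      rw [le_antisymm (not_lt.1 this) (hL _), mul_zero]
  · have : ¬ 0 < Bx (x - c) := fun hh => hc ((e1 c).1 hh)
    rw [le_antisymm (not_lt.1 this) (hB _), mul_zero, zero_mul]

theorem np2ab_dT0 (hSPD : ST_SPD) (hELEM : ST_ELEM) (hLAM : ST_LAM) {z : ℤ → ℤ → ℤ} {X T : El}
    {x t : ℝ} (hz : SupI z) (hX : X.mem x) (hT : T.mem t)
    (h : ∀ c ∈ X.nd, ∀ k ∈ T.iv, z c k = z c (k + 1)) : dT (sp z) (x, t) = 0 := by
  obtain ⟨-, -, -, h1⟩ := hSPD z hz
  obtain ⟨-, -, -, hB, hL, -⟩ := hLAM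
  obtain ⟨-, e1, -⟩ := hELEM.2 X x hX
  obtain ⟨e2, -, -⟩ := hELEM.2 T t hT
  rw [h1]
  refine Finset.sum_eq_zero fun c _ => Finset.sum_eq_zero fun k _ => ?_
  by_cases hc : c ∈ X.nd
  · by_cases hk : k ∈ T.iv
    · rw [h c hc k hk, sub_self, zero_mul, zero_mul]
    · have : ¬ 0 < Bx (t - k) := fun hh => hk ((e2 k).1 hh)
      rw [le_antisymm (not_lt.1 this) (hB _), mul_zero]
  · have : ¬ 0 < Lam (x - c) := fun hh => hc ((e1 c).1 hh)
    rw [le_antisymm (not_lt.1 this) (hL _), mul_zero, zero_mul]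

theorem np2ab_mR (hSPD : ST_SPD) (hm : SupI mI) (hx : SupI xI) (z : ℝ × ℝ) :
    dX mR z = dX (sp mI) z + 2 * kk * dX (sp xI) z ∧
    dT mR z = dT (sp mI) z + 2 * kk * dT (sp xI) z := by
  have h1 : DifferentiableAt ℝ (sp mI) z := (hSPD mI hm).1.differentiable (by simp) z
  have h2 : DifferentiableAt ℝ (sp xI) z := (hSPD xI hx).1.differentiable (by simp) z
  have h3 : HasFDerivAt mR (fderiv ℝ (sp mI) z + (2 * kk) • fderiv ℝ (sp xI) z) z :=
    h1.hasFDerivAt.add (h2.hasFDerivAt.const_mul (2 * kk))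
  unfold dX dT
  rw [h3.fderiv]
  simp

theorem np2ab_core (hDAT : ST_DAT) (hELEM : ST_ELEM) (hSIGN : ST_SIGN) (hSLIN : ST_SLIN)
    (hHHF : ST_HHF) (hSPD : ST_SPD) (hLAM : ST_LAM) {x t s s' : ℝ} (h1 : 13 / 4 < t)
    (h2 : t ≤ 47 / 4) (hO : ¬ (15 / 4 ≤ x ∧ x ≤ 29 / 4 ∧ 35 / 4 ≤ t ∧ t ≤ 61 / 4))
    (hs : s ^ 2 = hh (sp aI' (x, t) / ee)) (hs' : s' ^ 2 = hh (sp bI (x, t) / ee))
    (hdX : s * dX (sp aI') (x, t) = dX mR (x, t) + s' * dX (sp bI) (x, t))
    (hdT : s * dT (sp aI') (x, t) = dT mR (x, t) + s' * dT (sp bI) (x, t)) : False := by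
  obtain ⟨⟨-, sa, sb, sm, -, -, sx⟩, -, ⟨-, pa, pb, -⟩, -, -⟩ := hDAT
  obtain ⟨X, hX⟩ := hELEM.1 x
  obtain ⟨T, hT⟩ := hELEM.1 t
  obtain ⟨a1, a2, a3⟩ := np2ab_prof hHHF hSIGN sa pa hX hT hs
  obtain ⟨b1, b2, b3⟩ := np2ab_prof hHHF hSIGN sb pb hX hT hs'
  have hXm : X ∈ allX := np2ab_allX a1
  have hTm : T ∈ T2 := np2ab_T2 hT h1 h2
  have hhole := np2ab_hole hX hT hO
  have hc := np2ab_chk2AB
  unfold chk2AB at hc
  rw [List.all_eq_true] at hc
  have hc1 := hc X hXm
  rw [List.all_eq_true] at hc1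
  have hc2 := hc1 T hTm
  rw [hhole, Bool.false_or] at hc2
  obtain ⟨mX, mT⟩ := np2ab_mR hSPD sm sx (x, t)
  rcases np2ab_pair hSIGN hSLIN sa sm sb hX hT hc2 a1 b1 a2 b2 a3 b3 with h | ⟨hl, h⟩
  · apply h
    have hx := np2abX_true
    unfold np2abX at hx
    rw [List.all_eq_true] at hx
    have hx1 := hx X hXm
    rw [List.all_eq_true] at hx1
    have hx2 := hx1 T (List.mem_append_left _ hTm)
    rw [a1, b1, Bool.false_or, Bool.false_or, List.all_eq_true] at hx2
    have h0 : dX (sp xI) (x, t) = 0 := np2ab_dX0 hSPD hELEM hLAM sx hX hT (fun c hc k hk => by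
      have h3 := hx2 c hc
      rw [List.all_eq_true] at h3
      exact of_decide_eq_true (h3 k hk))
    rw [mX, h0] at hdX
    linarith
  · apply h
    have hx := np2abT_true
    unfold np2abT at hx
    rw [List.all_eq_true] at hx
    have hx1 := hx X hXm
    rw [List.all_eq_true] at hx1
    have hx2 := hx1 T hTm
    rw [hl, Bool.not_true, Bool.false_or, List.all_eq_true] at hx2
    have h0 : dT (sp xI) (x, t) = 0 := np2ab_dT0 hSPD hELEM hLAM sx hX hT (fun c hc k hk => by
      have h3 := hx2 c hc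
      rw [List.all_eq_true] at h3
      exact of_decide_eq_true (h3 k hk))
    rw [mT, h0] at hdT
    linarith

theorem np2ab_sSame1 (hSIGN : ST_SIGN) (hSLIN : ST_SLIN) {X T : El} {x t : ℝ}
    {m b u : ℤ → ℤ → ℤ} (hm : SupI m) (hb : SupI b) (hu : SupI u) (hX : X.mem x) (hT : T.mem t)
    (σ σ' : ℤ) {w : ℤ → ℤ → ℤ} (hw : w = fun c k => m c k + σ' * b c k - σ * u c k)
    (h : sSame [w] X T = true) :
    dX (sp m) (x, t) + σ' * dX (sp b) (x, t) - σ * dX (sp u) (x, t) ≠ 0 := by
  have hlin := hSLIN m b u σ σ' (x, t) hm hb hu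
  have hsg := hSIGN (fun c k => m c k + σ' * b c k - σ * u c k) X T x t hlin.1 hX hT
  rw [← hlin.2.2.1]
  subst hw
  unfold sSame at h
  simp only [List.all_cons, List.all_nil, Bool.and_true, Bool.or_eq_true] at h
  rcases h with h | h
  · exact (hsg.1 h).ne'
  · exact (hsg.2.1 h).ne

theorem st_NP2AB (hDAT : ST_DAT) (hELEM : ST_ELEM) (hSIGN : ST_SIGN) (hSLIN : ST_SLIN)
    (hSREF : ST_SREF) (hQUAD : ST_QUAD) (hQDAT : ST_QDAT) (hMU : ST_MU) (hHHF : ST_HHF)
    (hSPD : ST_SPD) (hLAM : ST_LAM) : ST_NP2AB := by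
  rintro ⟨x, t⟩ s s' hO hs hs' hdX hdT
  obtain ⟨hO1, hO2, hO3⟩ := hO
  simp only at hO1 hO2 hO3
  unfold uA' at hs hdX hdT
  unfold uB at hs' hdX hdT
  obtain ⟨⟨-, sa, sb, sm, -, -, sx⟩, ⟨-, ra, rb, rm, -, -, rx⟩, ⟨-, pa, pb, -⟩, -, -⟩ := id hDAT
  obtain ⟨mX, mT⟩ := np2ab_mR hSPD sm sx (x, t)
  by_cases ht1 : t ≤ 47 / 4
  · exact (np2ab_core hDAT hELEM hSIGN hSLIN hHHF hSPD hLAM hO1 ht1 hO3 hs hs' hdX hdT).elim
  by_cases ht2 : 49 / 4 ≤ t
  · exfalso
    obtain ⟨nX, nT⟩ := np2ab_mR hSPD sm sx (x, 24 - t)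
    obtain ⟨A0, A1, A2⟩ := hSREF aI' sa ra x t
    obtain ⟨B0, B1, B2⟩ := hSREF bI sb rb x t
    obtain ⟨M0, M1, M2⟩ := hSREF mI sm rm x t
    obtain ⟨X0, X1, X2⟩ := hSREF xI sx rx x t
    refine np2ab_core hDAT hELEM hSIGN hSLIN hHHF hSPD hLAM (x := x) (t := 24 - t) (s := s)
      (s' := s') (by linarith) (by linarith) ?_ (by rw [A0]; exact hs) (by rw [B0]; exact hs')
      ?_ ?_
    · rintro ⟨q1, q2, q3, q4⟩
      exact hO3 ⟨q1, q2, by linarith, by linarith⟩
    · rw [A1, nX, M1, X1, B1, ← mX]; exact hdX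
    · rw [A2, nT, M2, X2, B2]
      rw [mT] at hdT
      linarith
  rw [not_le] at ht1 ht2
  -- the middle band
  have hT : (El.near 12).mem t := by
    simp only [El.mem, abs_lt]
    push_cast
    constructor <;> linarith
  obtain ⟨X, hX⟩ := hELEM.1 x
  obtain ⟨a1, a2, a3⟩ := np2ab_prof hHHF hSIGN sa pa hX hT hs
  obtain ⟨b1, b2, b3⟩ := np2ab_prof hHHF hSIGN sb pb hX hT hs'
  have hXm : X ∈ allX := np2ab_allX a1
  have hhole := np2ab_hole hX hT hO3
  have hx0 : dX (sp xI) (x, t) = 0 := by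
    have hx := np2abX_true
    unfold np2abX at hx
    rw [List.all_eq_true] at hx
    have hx1 := hx X hXm
    rw [List.all_eq_true] at hx1
    have hx2 := hx1 (El.near 12) (List.mem_append_right _ (List.mem_singleton.2 rfl))
    rw [a1, b1, Bool.false_or, Bool.false_or, List.all_eq_true] at hx2
    exact np2ab_dX0 hSPD hELEM hLAM sx hX hT (fun c hc k hk => by
      have h3 := hx2 c hc
      rw [List.all_eq_true] at h3
      exact of_decide_eq_true (h3 k hk))
  rw [mX, hx0] at hdX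
  have hc := np2ab_chk12AB
  unfold chk12AB at hc
  rw [List.all_eq_true] at hc
  have hc1 := hc X hXm
  rw [hhole, Bool.false_or, Bool.or_eq_true, decide_eq_true_eq] at hc1
  rcases hc1 with h8 | hp
  swap
  · rcases np2ab_pair hSIGN hSLIN sa sm sb hX hT hp a1 b1 a2 b2 a3 b3 with h | ⟨hl, -⟩
    · exact (h (by linarith)).elim
    · exact Bool.noConfusion hl
  subst h8
  have h12 := np2ab_chk12C
  unfold chk12C at h12
  rw [Bool.and_eq_true, Bool.and_eq_true, Bool.and_eq_true, Bool.and_eq_true] at h12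
  obtain ⟨⟨⟨⟨c1, c2⟩, c3⟩, fa⟩, fb⟩ := h12
  have e1 := np2ab_sSame1 hSIGN hSLIN sm sb sa hX hT 1 1
    (by funext c k; ring) c1
  have e2 := np2ab_sSame1 hSIGN hSLIN sm sb sa hX hT (-1) 1
    (by funext c k; ring) c2
  have e3 := np2ab_sSame1 hSIGN hSLIN sm sb sa hX hT (-1) (-1)
    (by funext c k; ring) c3
  push_cast at e1 e2 e3
  rcases a3 fa with hsv | hsv
  · rcases b3 fb with hsv' | hsv'
    · exact (e1 (by rw [hsv, hsv'] at hdX; linarith)).elim
    · refine ⟨?_, hsv, hsv'⟩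
      have hlin := hSLIN aI' mI bI (-1) (-1) (x, t) sa sm sb
      have hq := hQUAD (fun c k => aI' c k + (-1) * mI c k - (-1) * bI c k) 8 26 (-12) 2 hlin.1
        (by norm_num) (by norm_num) (fun i j hi hj => by
          have := (hQDAT i j hi hj).2.2.1
          linarith) x t
        (by
          simp only [El.mem] at hX
          push_cast at hX ⊢
          linarith)
        (by
          simp only [El.mem] at hT
          push_cast at hT
          linarith)
      have hxT : dT (sp xI) (x, t) = 0 := np2ab_dT0 hSPD hELEM hLAM sx hX hT (by decide +kernel)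
      rw [mT, hxT, hsv, hsv'] at hdT
      rw [hsv, hsv'] at hdX
      rw [hlin.2.2.1, hlin.2.2.2] at hq
      push_cast at hq
      obtain ⟨q1, q2⟩ := hq
      obtain ⟨-, -, -, -, -, -, hmu, -⟩ := hMU
      have hx8 : x - 8 = 0 := hmu (x - 8) (by
        simp only [El.mem] at hX
        push_cast at hX
        exact hX) (by linarith)
      have ht12 : t - 12 = 0 := hmu (t - 12) (by
        simp only [El.mem] at hT
        push_cast at hT
        exact hT) (by linarith)
      ext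
      · show x = 8
        linarith
      · show t = 12
        linarith
  · rcases b3 fb with hsv' | hsv'
    · exact (e2 (by rw [hsv, hsv'] at hdX; linarith)).elim
    · exact (e3 (by rw [hsv, hsv'] at hdX; linarith)).elim

end GW
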